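import Pool.Agent.R117.Witt

set_option autoImplicit false

/-!
MP_096921_co: the quasi-symmetric 3-designs with smaller intersection number 1 are the Witt
4-(23,7,1) design and its residual 3-(22,7,4) design, apart from the complete design of all
triples of a 5-set (a trivial design).
-/

namespace Pool.Agent.Results.MP_096921_co.Classification

open Finset

/-- `B` is (the block set of) a `t-(v,k,lam)` design without repeated blocks on the finite point
set `P`, where `v = |P|`: every block has exactly `k` points, and every `t`-element set of points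
lies in exactly `lam` blocks. -/
def IsDesign {P : Type*} [DecidableEq P] (B : Finset (Finset P)) (t k lam : ℕ) : Prop :=
  (∀ b ∈ B, b.card = k) ∧
    ∀ T : Finset P, T.card = t → (B.filter (fun b => T ⊆ b)).card = lam

/-- The set of block intersection numbers: the sizes of the intersections of two distinct
blocks. -/
def intersectionNumbers {P : Type*} [DecidableEq P] (B : Finset (Finset P)) : Set ℕ :=
  {n | ∃ b₁ ∈ B, ∃ b₂ ∈ B, b₁ ≠ b₂ ∧ (b₁ ∩ b₂).card = n}

/-- `B` is a Witt design: a 4-(23,7,1) design (Steiner system S(4,7,23)). -/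
def IsWitt {P : Type*} [Fintype P] [DecidableEq P] (B : Finset (Finset P)) : Prop :=
  Fintype.card P = 23 ∧ IsDesign B 4 7 1

/-- `B` is the residual of a Witt design: there is a 4-(23,7,1) design on the 22 points of `P` and
one new point `none` such that `B` consists of the blocks of it that miss the new point. -/
def IsWittResidual {P : Type*} [Fintype P] [DecidableEq P] (B : Finset (Finset P)) : Prop :=
  Fintype.card P = 22 ∧ ∃ C : Finset (Finset (Option P)), IsDesign C 4 7 1 ∧
    C.filter (fun c => none ∉ c) = B.image (fun b => b.map Function.Embedding.some)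

/-- **Quasi-symmetric 3-designs with smaller intersection number 1.** Let `B` be a
3-(v,k,lam) design without repeated blocks, `3 ≤ k < v`, whose set of intersection numbers is
`{1, y}` with `y > 1`. Then `B` is a Witt 4-(23,7,1) design, or the residual of a
Witt design, or the trivial design of all triples of a 5-set. -/
theorem result {P : Type*} [Fintype P] [DecidableEq P] (B : Finset (Finset P)) (k lam y : ℕ)
    (hk : 3 ≤ k) (hkv : k < Fintype.card P) (hD : IsDesign B 3 k lam) (hy : 1 < y)
    (hI : intersectionNumbers B = {1, y}) :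
    (k = 7 ∧ lam = 5 ∧ y = 3 ∧ IsWitt B) ∨
      (k = 7 ∧ lam = 4 ∧ y = 3 ∧ IsWittResidual B) ∨
      (k = 3 ∧ Fintype.card P = 5 ∧ B = (univ : Finset P).powersetCard 3) := by
  have hint : ∀ b₁ ∈ B, ∀ b₂ ∈ B, b₁ ≠ b₂ → (b₁ ∩ b₂).card = 1 ∨ (b₁ ∩ b₂).card = y := by
    intro b₁ h₁ b₂ h₂ hne
    have : (b₁ ∩ b₂).card ∈ intersectionNumbers B := ⟨b₁, h₁, b₂, h₂, hne, rfl⟩
    rw [hI] at this
    simpa using this
  have hx1 : ∃ b₁ ∈ B, ∃ b₂ ∈ B, b₁ ≠ b₂ ∧ (b₁ ∩ b₂).card = 1 := by
    have : 1 ∈ intersectionNumbers B := by rw [hI]; simp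
    exact this
  have hy1 : ∃ b₁ ∈ B, ∃ b₂ ∈ B, b₁ ≠ b₂ ∧ (b₁ ∩ b₂).card = y := by
    have : y ∈ intersectionNumbers B := by rw [hI]; simp
    exact this
  have h3 : ∀ T : Finset P, T.card = 3 → Pool.Agent.TH413.QS.deg B T = lam := hD.2
  rcases Pool.Agent.TH413.QS.params B k lam y hk hkv hD.1 h3 hy hint hx1 hy1 with
    ⟨rfl, rfl, ⟨rfl, hP⟩ | ⟨rfl, hP⟩⟩ | ⟨rfl, rfl, rfl, hP⟩
  · refine Or.inr (Or.inl ⟨rfl, rfl, rfl, hP, Pool.Agent.R117.Witt.ext B, ⟨?_, ?_⟩, ?_⟩)
    · exact Pool.Agent.R117.Witt.ext_card hP hD.1 h3 hint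
    · exact Pool.Agent.R117.Witt.ext_four hP hD.1 h3 hint
    · exact Pool.Agent.R117.Witt.ext_filter B
  · exact Or.inl ⟨rfl, rfl, rfl, hP, hD.1,
      Pool.Agent.R117.Witt.four_design B hP hD.1 h3 hint⟩
  · refine Or.inr (Or.inr ⟨rfl, hP, ?_⟩)
    ext T
    rw [mem_powersetCard]
    constructor
    · intro hT
      exact ⟨subset_univ _, hD.1 T hT⟩
    · rintro ⟨-, hT⟩
      have h1 := hD.2 T hT
      obtain ⟨b, hb⟩ := card_pos.1 (by rw [h1]; norm_num :
        0 < (B.filter (fun b => T ⊆ b)).card)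
      rw [mem_filter] at hb
      have h2 : T = b := eq_of_subset_of_card_le hb.2 (by rw [hD.1 b hb.1, hT])
      rw [h2]
      exact hb.1

end Pool.Agent.Results.MP_096921_co.Classification
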